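import Mathlib

/-! Every connected graph without induced path on five vertices has a vertex lying on all its
longest paths: the complete proof.  Paths are lists; components are sets. -/

namespace MPfeab4e

section BasicPart
/-! ### Longest paths in connected graphs without induced five-vertex paths: basic tools. -/


variable {V : Type*} {G : SimpleGraph V}

/-- A path as a list of distinct vertices, consecutive ones adjacent. -/
def Pth (G : SimpleGraph V) (l : List V) : Prop := l.IsChain G.Adj ∧ l.Nodup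

/-- A longest path. -/
def Lng (G : SimpleGraph V) (l : List V) : Prop :=
  Pth G l ∧ ∀ l' : List V, Pth G l' → l'.length ≤ l.length

/-- Connectedness of a vertex set: no proper nonempty part is closed under adjacency. -/
def Cn (G : SimpleGraph V) (D : Set V) : Prop :=
  ∀ p : V → Prop, (∃ a ∈ D, p a) → (∀ u ∈ D, ∀ v ∈ D, G.Adj u v → p u → p v) → ∀ b ∈ D, p b

/-- `C` is a component of `G - S`. -/
structure Cmp (G : SimpleGraph V) (S C : Set V) : Prop where
  ne : C.Nonempty
  dis : ∀ x ∈ C, x ∉ S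
  cn : Cn G C
  cl : ∀ u ∈ C, ∀ v, v ∉ S → G.Adj u v → v ∈ C

/-- The neighbourhood of a set. -/
def Nb (G : SimpleGraph V) (C : Set V) : Set V := {v | v ∉ C ∧ ∃ c ∈ C, G.Adj v c}

/-- No induced path on five vertices. -/
def NoP5 (G : SimpleGraph V) : Prop :=
  ∀ a b c d e : V, G.Adj a b → G.Adj b c → G.Adj c d → G.Adj d e → ¬ G.Adj a c → ¬ G.Adj a d →
    ¬ G.Adj a e → ¬ G.Adj b d → ¬ G.Adj b e → ¬ G.Adj c e → False

theorem exists_max {α : Type*} (p : α → Prop) (f : α → ℕ) (B : ℕ) (hB : ∀ a, p a → f a ≤ B)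
    (hne : ∃ a, p a) : ∃ a, p a ∧ ∀ b, p b → f b ≤ f a := by
  classical
  obtain ⟨a0, h0⟩ := hne
  by_contra hcon
  push Not at hcon
  have key : ∀ n : ℕ, ∃ a, p a ∧ n ≤ f a := by
    intro n
    induction n with
    | zero => exact ⟨a0, h0, Nat.zero_le _⟩
    | succ n ih =>
      obtain ⟨a, ha, hn⟩ := ih
      obtain ⟨b, hb, hlt⟩ := hcon a ha
      exact ⟨b, hb, by omega⟩
  obtain ⟨a, ha, hn⟩ := key (B + 1)
  have := hB a ha
  omega

theorem exists_cmp (S : Set V) (a : V) (ha : a ∉ S) : ∃ C, Cmp G S C ∧ a ∈ C := by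
  let R : V → V → Prop := fun u v => G.Adj u v ∧ v ∉ S
  refine ⟨{b | Relation.ReflTransGen R a b}, ⟨⟨a, Relation.ReflTransGen.refl⟩, ?_, ?_, ?_⟩,
    Relation.ReflTransGen.refl⟩
  · intro x hx
    rcases Relation.ReflTransGen.cases_tail hx with h | ⟨c, _, h⟩
    · exact h ▸ ha
    · exact h.2
  · intro p hp hcl b hb
    -- first p a
    obtain ⟨c, hc, hpc⟩ := hp
    have hpa : p a := by
      have : ∀ c, Relation.ReflTransGen R a c → p c → p a := by
        intro c hc
        induction hc with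
        | refl => exact id
        | tail hab hbc ih =>
          intro hpc
          exact ih (hcl _ (hab.tail hbc) _ hab hbc.1.symm hpc)
      exact this c hc hpc
    have : ∀ b, Relation.ReflTransGen R a b → p b := by
      intro b hb
      induction hb with
      | refl => exact hpa
      | tail hab hbc ih => exact hcl _ hab _ (hab.tail hbc) hbc.1 ih
    exact this b hb
  · intro u hu v hv huv
    exact Relation.ReflTransGen.tail hu ⟨huv, hv⟩

theorem Cmp.sub {S C D : Set V} (hC : Cmp G S C) (hD : Cn G D) (hDS : ∀ x ∈ D, x ∉ S)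
    (hm : ∃ x ∈ D, x ∈ C) : ∀ x ∈ D, x ∈ C :=
  hD (fun x => x ∈ C) hm (fun u _ v hv huv hu => hC.cl u hu v (hDS v hv) huv)

/-- A vertex with a neighbour and a non-neighbour in a connected set. -/
theorem mixed {D : Set V} (hD : Cn G D) {h : V} (h1 : ∃ x ∈ D, G.Adj h x)
    (h2 : ∃ x ∈ D, ¬ G.Adj h x) : ∃ u ∈ D, ∃ v ∈ D, G.Adj u v ∧ G.Adj h u ∧ ¬ G.Adj h v := by
  by_contra hcon
  push Not at hcon
  obtain ⟨x, hx, hnx⟩ := h2
  exact hnx (hD (fun x => G.Adj h x) h1 (fun u hu v hv huv h => hcon u hu v hv huv h) x hx)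

theorem chain_cn {l : List V} (h : l.IsChain G.Adj) : Cn G {x | x ∈ l} := by
  intro p hp hcl
  induction l with
  | nil => intro b hb; simp at hb
  | cons x l ih =>
    cases l with
    | nil =>
      intro b hb
      obtain ⟨a, ha, hpa⟩ := hp
      simp at ha hb
      rw [hb, ← ha]; exact hpa
    | cons y l =>
      have hxy : G.Adj x y := by
        rw [List.isChain_cons_cons] at h; exact h.1
      have h' : (y :: l).IsChain G.Adj := by
        rw [List.isChain_cons_cons] at h; exact h.2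
      have hcl' : ∀ u ∈ {x | x ∈ y :: l}, ∀ v ∈ {x | x ∈ y :: l}, G.Adj u v → p u → p v :=
        fun u hu v hv => hcl u (List.mem_cons_of_mem _ hu) v (List.mem_cons_of_mem _ hv)
      have hy : y ∈ {x_1 | x_1 ∈ x :: y :: l} := by simp
      have hx : x ∈ {x_1 | x_1 ∈ x :: y :: l} := by simp
      have hex : ∃ a ∈ {x | x ∈ y :: l}, p a := by
        obtain ⟨a, ha, hpa⟩ := hp
        rcases List.mem_cons.1 ha with rfl | ha
        · exact ⟨y, by simp, hcl _ hx y hy hxy hpa⟩
        · exact ⟨a, ha, hpa⟩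
      have hall := ih h' hex hcl'
      intro b hb
      rcases List.mem_cons.1 hb with rfl | hb
      · exact hcl y hy _ hx hxy.symm (hall y (by simp))
      · exact hall b hb

theorem exists_path {D : Set V} (hD : Cn G D) {a b : V} (ha : a ∈ D) (hb : b ∈ D) :
    ∃ Q : List V, Pth G Q ∧ (∀ x ∈ Q, x ∈ D) ∧ Q.head? = some a ∧ Q.getLast? = some b := by
  refine hD (fun b => ∃ Q : List V, Pth G Q ∧ (∀ x ∈ Q, x ∈ D) ∧ Q.head? = some a ∧
    Q.getLast? = some b) ⟨a, ha, [a], ⟨by simp, by simp⟩, by simpa using ha, rfl, rfl⟩ ?_ b hb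
  rintro u hu v hv huv ⟨Q, ⟨hQ1, hQ2⟩, hQD, hQa, hQu⟩
  by_cases hvQ : v ∈ Q
  · obtain ⟨A, B, rfl⟩ := List.append_of_mem hvQ
    refine ⟨A ++ [v], ⟨?_, ?_⟩, ?_, ?_, by simp⟩
    · rw [List.isChain_split] at hQ1; exact hQ1.1
    · exact hQ2.sublist (by simp)
    · intro x hx; apply hQD; simp at hx ⊢; tauto
    · cases A <;> simpa using hQa
  · refine ⟨Q ++ [v], ⟨?_, ?_⟩, ?_, ?_, by simp⟩
    · rw [List.isChain_append]
      refine ⟨hQ1, by simp, ?_⟩
      intro x hx y hy
      simp at hy; subst hy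
      rw [hQu] at hx; simp at hx; subst hx; exact huv
    · rw [List.nodup_append]; refine ⟨hQ2, by simp, ?_⟩
      intro x hx y hy; simp at hy; subst hy; rintro rfl; exact hvQ hx
    · intro x hx; simp at hx; rcases hx with hx | rfl; exacts [hQD x hx, hv]
    · cases Q with
      | nil => simp at hQa
      | cons q Q => simpa using hQa

/-- The domination lemma: if `g` sees `C` and `z` is a private neighbour of `g`,
then every vertex of `C` is a neighbour of `g` or has a neighbour in `N(g) ∩ C`. -/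
theorem dom (hP : NoP5 G) {C : Set V} (hC : Cn G C) {g z : V} (hg : ∃ c ∈ C, G.Adj g c)
    (hz : G.Adj g z) (hzC : ∀ x ∈ C, ¬ G.Adj z x) :
    ∀ x ∈ C, G.Adj g x ∨ ∃ a ∈ C, G.Adj g a ∧ G.Adj a x := by
  apply hC
  · obtain ⟨c, hc, hgc⟩ := hg
    exact ⟨c, hc, Or.inl hgc⟩
  · rintro u hu v hv huv (h | ⟨a, ha, hga, hau⟩)
    · exact Or.inr ⟨u, hu, h, huv⟩
    · by_cases hgv : G.Adj g v
      · exact Or.inl hgv
      by_cases hav : G.Adj a v
      · exact Or.inr ⟨a, ha, hga, hav⟩
      by_cases hgu : G.Adj g u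
      · exact Or.inr ⟨u, hu, hgu, huv⟩
      exact (hP z g a u v hz.symm hga hau huv (hzC a ha) (hzC u hu) (hzC v hv) hgu hgv hav).elim

/-- Two nonadjacent attachments of a connected set: private outer neighbours are adjacent. -/
theorem two (hP : NoP5 G) {C : Set V} (hC : Cn G C) {s t u u' : V} (hs : ∃ c ∈ C, G.Adj s c)
    (ht : ∃ c ∈ C, G.Adj t c) (hst : ¬ G.Adj s t) (hsu : G.Adj s u) (htu' : G.Adj t u')
    (hsu' : ¬ G.Adj s u') (htu : ¬ G.Adj t u) (huC : ∀ x ∈ C, ¬ G.Adj u x)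
    (hu'C : ∀ x ∈ C, ¬ G.Adj u' x) : G.Adj u u' := by
  by_contra hcon
  obtain ⟨b, hb, htb⟩ := ht
  have hA : ∀ c ∈ C, G.Adj s c → G.Adj t c → False := fun c hc hsc htc =>
    hP u s c t u' hsu.symm hsc htc.symm htu' (huC c hc) (fun h => htu h.symm) hcon hst hsu'
      (fun h => hu'C c hc h.symm)
  rcases dom hP hC hs hsu huC b hb with h | ⟨a, ha, hsa, hab⟩
  · exact hA b hb h htb
  · by_cases hta : G.Adj t a
    · exact hA a ha hsa hta
    by_cases hsb : G.Adj s b
    · exact hA b hb hsb htb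
    exact hP u s a b t hsu.symm hsa hab htb.symm (huC a ha) (huC b hb) (fun h => htu h.symm) hsb
      hst (fun h => hta h.symm)

end BasicPart

section SurgeryPart
/-! ### Path surgery. -/


variable {V : Type*} {G : SimpleGraph V}

theorem gen_ins {A B Q : List V} (hL : Lng G (A ++ B)) (hQ : Pth G Q) (hne : Q ≠ [])
    (hd : ∀ x ∈ Q, x ∉ A ∧ x ∉ B) (h1 : ∀ x ∈ A.getLast?, ∀ y ∈ Q.head?, G.Adj x y)
    (h2 : ∀ x ∈ Q.getLast?, ∀ y ∈ B.head?, G.Adj x y) : False := by
  obtain ⟨⟨hc, hn⟩, hmax⟩ := hL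
  rw [List.isChain_append] at hc
  rw [List.nodup_append] at hn
  have hlen := hmax (A ++ (Q ++ B)) ⟨?_, ?_⟩
  · have : 0 < Q.length := List.length_pos_iff.2 hne
    rw [List.length_append, List.length_append, List.length_append] at hlen; omega
  · rw [List.isChain_append, List.isChain_append]
    refine ⟨hc.1, ⟨hQ.1, hc.2.1, h2⟩, ?_⟩
    intro x hx y hy
    apply h1 x hx y
    cases Q with
    | nil => exact absurd rfl hne
    | cons q Q => simpa using hy
  · rw [List.nodup_append, List.nodup_append]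
    refine ⟨hn.1, ⟨hQ.2, hn.2.1, ?_⟩, ?_⟩
    · rintro x hx y hy rfl; exact (hd x hx).2 hy
    · rintro x hx y hy rfl
      rcases List.mem_append.1 hy with hy | hy
      · exact (hd x hy).1 hx
      · exact hn.2.2 x hx x hy rfl

/-- replacing an initial segment. -/
theorem replace_init {d e Q : List V} {g r : V} (hL : Lng G (d ++ g :: e)) (hQ : Pth G Q)
    (hd : ∀ x ∈ Q, x ∉ g :: e) (hr : Q.getLast? = some r) (hrg : G.Adj r g) :
    Q.length ≤ d.length := by
  obtain ⟨⟨hc, hn⟩, hmax⟩ := hL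
  rw [List.isChain_append] at hc
  rw [List.nodup_append] at hn
  have hlen := hmax (Q ++ g :: e) ⟨?_, ?_⟩
  · simp at hlen; omega
  · rw [List.isChain_append]
    refine ⟨hQ.1, hc.2.1, ?_⟩
    intro x hx y hy
    rw [hr] at hx
    simp at hx hy
    subst hx; subst hy; exact hrg
  · rw [List.nodup_append]
    refine ⟨hQ.2, hn.2.1, ?_⟩
    rintro x hx y hy rfl
    exact hd x hx hy

/-- crossing surgery. -/
theorem cross {A M D Q : List V} {h h' : V} (hL : Lng G (A ++ h :: (M ++ h' :: D)))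
    (hQ : Pth G Q) (hne : Q ≠ []) (hd : ∀ x ∈ Q, x ∉ A ++ h :: (M ++ h' :: D))
    (h1 : ∀ y ∈ Q.head?, G.Adj h y) (h2 : ∀ x ∈ Q.getLast?, G.Adj x h')
    (hMne : M ≠ [])
    (h3 : ∀ x ∈ M.head?, ∀ y ∈ D.head?, G.Adj x y) : False := by
  obtain ⟨⟨hc, hn⟩, hmax⟩ := hL
  have hlen := hmax (A ++ h :: (Q ++ h' :: (M.reverse ++ D))) ⟨?_, ?_⟩
  · have : 0 < Q.length := List.length_pos_iff.2 hne
    simp at hlen; omega
  · rw [List.isChain_split] at hc ⊢
    refine ⟨hc.1, ?_⟩
    obtain ⟨_, hc⟩ := hc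
    rw [← List.cons_append, List.isChain_split] at hc
    obtain ⟨hcM, hcD⟩ := hc
    rw [List.cons_append, List.isChain_cons, List.isChain_append] at hcM
    rw [List.isChain_cons, List.isChain_append, List.isChain_cons, List.isChain_append]
    rw [List.isChain_cons] at hcD
    refine ⟨?_, hQ.1, ⟨?_, ?_, hcD.2, ?_⟩, ?_⟩
    · intro y hy
      apply h1
      cases Q with
      | nil => exact absurd rfl hne
      | cons q Q => simpa using hy
    · intro y hy
      have : y ∈ M.getLast? := by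
        rw [← List.head?_reverse]
        cases hM : M.reverse with
        | nil => simp at hM; exact absurd hM hMne
        | cons q Q => rw [hM] at hy; simpa using hy
      exact (hcM.2.2.2 y this h' (by simp)).symm
    · rw [List.isChain_reverse]
      exact hcM.2.1.imp (fun a b h => h.symm)
    · intro x hx y hy
      rw [List.getLast?_reverse] at hx
      exact h3 x hx y hy
    · intro x hx y hy
      simp at hy; subst hy
      exact h2 x hx
  · have hp : (A ++ h :: (Q ++ h' :: (M.reverse ++ D))).Perm (Q ++ (A ++ h :: (M ++ h' :: D))) := by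
      have e1 : (h' :: (M.reverse ++ D)).Perm (M ++ h' :: D) := by
        refine List.Perm.trans ?_ List.perm_middle.symm
        exact ((List.reverse_perm M).append_right D).cons h'
      have e2 : (h :: (Q ++ h' :: (M.reverse ++ D))).Perm (Q ++ h :: (M ++ h' :: D)) := by
        refine List.Perm.trans ?_ List.perm_middle.symm
        exact (e1.append_left Q).cons h
      refine (e2.append_left A).trans ?_
      rw [← List.append_assoc, ← List.append_assoc]
      exact List.perm_append_comm.append_right _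
    rw [hp.nodup_iff, List.nodup_append]
    refine ⟨hQ.2, hn, ?_⟩
    rintro x hx y hy rfl
    exact hd x hx hy

/-- rotation: a path inside the neighbourhood of `b`, extended through `b` to `a`. -/
theorem rotate {π : List V} {a b : V} (hπ : Pth G π) (hb : ∀ x ∈ π, G.Adj x b) (hab : G.Adj a b) :
    ∃ Q : List V, Pth G Q ∧ π.length + 1 ≤ Q.length ∧ Q.getLast? = some a ∧
      ∀ x ∈ Q, x ∈ π ∨ x = b ∨ x = a := by
  have hbπ : b ∉ π := fun h => G.irrefl (hb b h)
  have hab' : a ≠ b := hab.ne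
  by_cases ha : a ∈ π
  · obtain ⟨X, Z, rfl⟩ := List.append_of_mem ha
    obtain ⟨hc, hn⟩ := hπ
    refine ⟨Z ++ b :: (X ++ [a]), ⟨?_, ?_⟩, by simp; omega,
      by rw [← List.cons_append, ← List.append_assoc]; exact List.getLast?_concat, ?_⟩
    · rw [List.isChain_split] at hc
      obtain ⟨hc1, hc2⟩ := hc
      rw [List.isChain_append, List.isChain_cons]
      rw [List.isChain_cons] at hc2
      refine ⟨hc2.2, ⟨?_, hc1⟩, ?_⟩
      · intro y hy
        have : y ∈ X ++ a :: Z := by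
          have : y ∈ X ++ [a] := List.mem_of_mem_head? hy
          simp at this ⊢; tauto
        exact (hb y this).symm
      · intro x hx y hy
        simp at hy; subst hy
        apply hb
        have : x ∈ Z := List.mem_of_mem_getLast? hx
        simp; tauto
    · have hp : (Z ++ b :: (X ++ [a])).Perm (b :: (X ++ a :: Z)) := by
        refine List.perm_middle.trans (List.Perm.cons b ?_)
        refine List.perm_append_comm.trans ?_
        simp
      rw [hp.nodup_iff, List.nodup_cons]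
      exact ⟨hbπ, hn⟩
    · intro x hx; simp at hx ⊢; tauto
  · refine ⟨π ++ [b, a], ⟨?_, ?_⟩, by simp, by simp, ?_⟩
    · rw [List.isChain_append]
      refine ⟨hπ.1, by simp [hab.symm], ?_⟩
      intro x hx y hy
      simp at hy; subst hy
      exact hb x (List.mem_of_mem_getLast? hx)
    · rw [List.nodup_append]
      refine ⟨hπ.2, by simp [hab'.symm], ?_⟩
      rintro x hx y hy rfl
      simp at hy
      rcases hy with rfl | rfl
      · exact hbπ hx
      · exact ha hx
    · intro x hx; simp at hx ⊢; tauto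

end SurgeryPart

section CtxPart
/-! ### A longest path and a component outside it. -/


variable {V : Type*} {G : SimpleGraph V}

/-- `b` is the successor of `a` on `P`. -/
def Nx (P : List V) (a b : V) : Prop := ∃ A B, P = A ++ a :: b :: B

/-- vertices outside `N[C]`. -/
def Out (G : SimpleGraph V) (C : Set V) : Set V := {x | x ∉ C ∧ x ∉ Nb G C}

/-- outer neighbours. -/
def No (G : SimpleGraph V) (C : Set V) (h : V) : Set V := {x | x ∈ Out G C ∧ G.Adj h x}

/-- attachments with inclusion-maximal outer neighbourhood. -/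
def Mx (G : SimpleGraph V) (C : Set V) (h : V) : Prop :=
  h ∈ Nb G C ∧ ∀ h' ∈ Nb G C, No G C h ⊆ No G C h' → No G C h' ⊆ No G C h

theorem out_anti {C : Set V} {x c : V} (hx : x ∈ Out G C) (hc : c ∈ C) : ¬ G.Adj x c :=
  fun h => hx.2 ⟨hx.1, c, hc, h⟩

theorem Nx.left_mem {P : List V} {a b : V} (h : Nx P a b) : a ∈ P := by
  obtain ⟨A, B, rfl⟩ := h; simp

theorem Nx.right_mem {P : List V} {a b : V} (h : Nx P a b) : b ∈ P := by
  obtain ⟨A, B, rfl⟩ := h; simp

theorem Nx.adj {P : List V} (hP : Pth G P) {a b : V} (h : Nx P a b) : G.Adj a b := by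
  obtain ⟨A, B, rfl⟩ := h
  have := hP.1
  rw [List.isChain_append_cons_cons] at this
  exact this.2.1

theorem split_unique {A B A' B' : List V} {x : V} (hn : (A ++ x :: B).Nodup)
    (h : A ++ x :: B = A' ++ x :: B') : A = A' ∧ B = B' := by
  have hn' := hn
  rw [h] at hn'
  rw [List.nodup_append] at hn hn'
  have h1 : x ∉ A := fun hx => hn.2.2 x hx x (by simp) rfl
  have h2 : x ∉ B := by
    have := hn.2.1
    rw [List.nodup_cons] at this; exact this.1
  have := (List.append_cons_inj_of_notMem h1 h2).1 h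
  exact ⟨this.1, this.2.2⟩

theorem Nx.inj {P : List V} (hP : P.Nodup) {a a' b : V} (h : Nx P a b) (h' : Nx P a' b) :
    a = a' := by
  obtain ⟨A, B, rfl⟩ := h
  obtain ⟨A', B', h'⟩ := h'
  have e : (A ++ [a]) ++ b :: B = (A' ++ [a']) ++ b :: B' := by simpa using h'
  have := (split_unique (by simpa using hP) e).1
  have := congrArg List.getLast? this
  simpa using this

theorem nx_or {P : List V} {a : V} (ha : a ∈ P) : (∃ b, Nx P a b) ∨ ∃ A, P = A ++ [a] := by
  obtain ⟨A, B, rfl⟩ := List.append_of_mem ha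
  cases B with
  | nil => right; exact ⟨A, rfl⟩
  | cons b B => left; exact ⟨b, A, B, rfl⟩

section

variable {P : List V} {C : Set V}

theorem nb_mem (hC : Cmp G {x | x ∈ P} C) {h : V} (hh : h ∈ Nb G C) : h ∈ P := by
  by_contra hcon
  obtain ⟨h1, c, hc, hadj⟩ := hh
  exact h1 (hC.cl c hc h hcon hadj.symm)

theorem not_mem_P (hC : Cmp G {x | x ∈ P} C) {x : V} (hx : x ∈ C) : x ∉ P := hC.dis x hx

/-- two consecutive vertices are not both attachments. -/
theorem no_consec (hL : Lng G P) (hC : Cmp G {x | x ∈ P} C) {a b : V} (h : Nx P a b)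
    (ha : a ∈ Nb G C) (hb : b ∈ Nb G C) : False := by
  obtain ⟨A, B, rfl⟩ := h
  obtain ⟨_, c, hc, hac⟩ := ha
  obtain ⟨_, c', hc', hbc⟩ := hb
  obtain ⟨Q, hQ, hQC, hQh, hQl⟩ := exists_path hC.cn hc hc'
  have e : A ++ a :: b :: B = (A ++ [a]) ++ b :: B := by simp
  rw [e] at hL
  refine gen_ins hL hQ (by rintro rfl; simp at hQh) ?_ ?_ ?_
  · intro x hx
    have := not_mem_P hC (hQC x hx)
    simp only [List.mem_append, List.mem_cons, List.not_mem_nil, not_or] at this ⊢
    tauto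
  · intro x hx y hy
    rw [hQh] at hy
    simp at hx hy; subst hx; subst hy; exact hac
  · intro x hx y hy
    rw [hQl] at hx
    simp at hx hy; subst hx; subst hy; exact hbc.symm

theorem not_last (hL : Lng G P) (hC : Cmp G {x | x ∈ P} C) {a : V} {A : List V}
    (h : P = A ++ [a]) (ha : a ∈ Nb G C) : False := by
  obtain ⟨_, c, hc, hac⟩ := ha
  have hcP := not_mem_P hC hc
  have e : P = P ++ [] := by simp
  rw [e] at hL
  refine gen_ins hL (Q := [c]) ⟨by simp, by simp⟩ (by simp) (by simpa using hcP) ?_ (by simp)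
  intro x hx y hy
  rw [h] at hx
  simp at hx hy; subst hx; subst hy; exact hac

theorem not_first (hL : Lng G P) (hC : Cmp G {x | x ∈ P} C) {a : V} {A : List V}
    (h : P = a :: A) (ha : a ∈ Nb G C) : False := by
  obtain ⟨_, c, hc, hac⟩ := ha
  have hcP := not_mem_P hC hc
  have e : P = [] ++ P := by simp
  rw [e] at hL
  refine gen_ins hL (Q := [c]) ⟨by simp, by simp⟩ (by simp) (by simpa using hcP) (by simp) ?_
  intro x hx y hy
  rw [h] at hy
  simp at hx hy; subst hx; subst hy; exact hac.symm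

theorem exists_succ (hL : Lng G P) (hC : Cmp G {x | x ∈ P} C) {a : V} (ha : a ∈ Nb G C) :
    ∃ b, Nx P a b := by
  rcases nx_or (nb_mem hC ha) with h | ⟨A, h⟩
  · exact h
  · exact (not_last hL hC h ha).elim

theorem succ_out (hL : Lng G P) (hC : Cmp G {x | x ∈ P} C) {a b : V} (ha : a ∈ Nb G C)
    (h : Nx P a b) : b ∈ Out G C :=
  ⟨fun hb => not_mem_P hC hb h.right_mem, fun hb => no_consec hL hC h ha hb⟩

theorem indep' (hL : Lng G P) (hC : Cmp G {x | x ∈ P} C) {A M D : List V} {h h' b b' : V}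
    (hP : P = A ++ h :: (M ++ h' :: D)) (hh : h ∈ Nb G C) (hh' : h' ∈ Nb G C)
    (hM : M.head? = some b) (hD : D.head? = some b') : ¬ G.Adj b b' := by
  intro hadj
  obtain ⟨_, c, hc, hhc⟩ := hh
  obtain ⟨_, c', hc', hh'c⟩ := hh'
  obtain ⟨Q, hQ, hQC, hQh, hQl⟩ := exists_path hC.cn hc hc'
  subst hP
  refine cross hL hQ (by rintro rfl; simp at hQh) ?_ ?_ ?_ (by rintro rfl; simp at hM) ?_
  · intro x hx
    exact not_mem_P hC (hQC x hx)
  · intro y hy
    rw [hQh] at hy; simp at hy; subst hy; exact hhc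
  · intro x hx
    rw [hQl] at hx; simp at hx; subst hx; exact hh'c.symm
  · intro x hx y hy
    rw [hM] at hx; rw [hD] at hy
    simp at hx hy; subst hx; subst hy; exact hadj

theorem indep (hL : Lng G P) (hC : Cmp G {x | x ∈ P} C) {h h' b b' : V} (hh : h ∈ Nb G C)
    (hh' : h' ∈ Nb G C) (hb : Nx P h b) (hb' : Nx P h' b') : ¬ G.Adj b b' := by
  by_cases hne : h = h'
  · subst hne
    obtain ⟨A, B, rfl⟩ := hb
    obtain ⟨A', B', h'⟩ := hb'
    have := (split_unique hL.1.2 h').2
    simp at this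
    rw [this.1]; exact G.irrefl
  have hn := hL.1.2
  have hh'P := nb_mem hC hh'
  have hhb := hb
  obtain ⟨A, B, rfl⟩ := hb
  simp only [List.mem_append, List.mem_cons] at hh'P
  rcases hh'P with h1 | h1 | h1 | h1
  · -- h' in A
    obtain ⟨A1, M, rfl⟩ := List.append_of_mem h1
    obtain ⟨A', B', e'⟩ := hb'
    have e1 : (A1 ++ h' :: M) ++ h :: b :: B = A1 ++ h' :: (M ++ h :: (b :: B)) := by simp
    rw [e1] at hL hC e' hn
    have h2 := (split_unique hn e').2
    have hM : M.head? = some b' := by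
      cases M with
      | nil =>
        simp at h2
        exact (no_consec hL hC (a := h') (b := h) ⟨A1, b :: B, by simp⟩ hh' hh).elim
      | cons m M => simp at h2; simp [h2.1]
    exact fun hadj => indep' hL hC rfl hh' hh hM (by simp) hadj.symm
  · exact absurd h1.symm hne
  · subst h1
    exact (no_consec hL hC hhb hh hh').elim
  · obtain ⟨M, D, rfl⟩ := List.append_of_mem h1
    obtain ⟨A', B', e'⟩ := hb'
    have e1 : A ++ h :: b :: (M ++ h' :: D) = (A ++ h :: b :: M) ++ h' :: D := by simp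
    have h2 := (split_unique (e1 ▸ hn) (e1.symm.trans e')).2
    exact indep' hL hC (A := A) (M := b :: M) (D := D) (by simp) hh hh' (by simp) (by simp [h2])

/-- The length lemma for initial segments. -/
theorem initseg (hP5 : NoP5 G) (hL : Lng G P) (hC : Cmp G {x | x ∈ P} C) {d e : List V} {g b : V}
    (hP : P = d ++ g :: e) (hg : g ∈ Nb G C) (hd : ∀ x ∈ d, x ∉ Nb G C) (hb : b ∈ C)
    {π : List V} (hπ : Pth G π) (hπC : ∀ x ∈ π, x ∈ C) (hπb : ∀ x ∈ π, G.Adj x b) :
    π.length + 1 ≤ d.length := by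
  have hdne : d ≠ [] := by
    rintro rfl
    exact not_first hL hC (by simpa using hP) hg
  obtain ⟨d', z, rfl⟩ := (List.eq_nil_or_concat d).resolve_left hdne
  have hzP : z ∈ P := by rw [hP]; simp
  have hzC : z ∉ C := fun h => not_mem_P hC h hzP
  have hzg : G.Adj z g := by
    have : Nx P z g := ⟨d', e, by rw [hP]; simp⟩
    exact this.adj hL.1
  have hzo : z ∈ Out G C := ⟨hzC, hd z (by simp)⟩
  have hCge : ∀ x ∈ C, x ∉ g :: e := by
    intro x hx hx'
    apply not_mem_P hC hx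
    rw [hP]; simp only [List.mem_append]; exact Or.inr hx'
  rcases dom hP5 hC.cn hg.2 hzg.symm (fun x hx => out_anti hzo hx) b hb with h | ⟨a, ha, hga, hab⟩
  · have hbπ : b ∉ π := fun h => G.irrefl (hπb b h)
    have := replace_init (hP ▸ hL) (Q := π ++ [b]) (r := b) ⟨?_, ?_⟩ ?_ (by simp) h.symm
    · simpa using this
    · rw [List.isChain_append]
      refine ⟨hπ.1, by simp, ?_⟩
      intro x hx y hy
      simp at hy; subst hy
      exact hπb x (List.mem_of_mem_getLast? hx)
    · rw [List.nodup_append]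
      refine ⟨hπ.2, by simp, ?_⟩
      rintro x hx y hy rfl
      simp at hy; subst hy; exact hbπ hx
    · intro x hx
      apply hCge
      simp at hx
      rcases hx with hx | rfl
      exacts [hπC x hx, hb]
  · obtain ⟨Q, hQ, hlen, hlast, hmem⟩ := rotate hπ hπb hab
    have := replace_init (hP ▸ hL) hQ ?_ hlast hga.symm
    · exact hlen.trans this
    · intro x hx
      apply hCge
      rcases hmem x hx with h | rfl | rfl
      exacts [hπC x h, hb, ha]

end

end CtxPart

section MainPart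
/-! ### The extremal argument. -/


variable {V : Type*} {G : SimpleGraph V}

/-- Hypotheses on the successor function of the attachments. -/
structure Suc (G : SimpleGraph V) (C : Set V) (f : V → V) : Prop where
  adj : ∀ h ∈ Nb G C, G.Adj h (f h)
  out : ∀ h ∈ Nb G C, f h ∈ Out G C
  inj : ∀ h ∈ Nb G C, ∀ h' ∈ Nb G C, f h = f h' → h = h'
  ind : ∀ h ∈ Nb G C, ∀ h' ∈ Nb G C, ¬ G.Adj (f h) (f h')

theorem exists_suc {P : List V} {C : Set V} (hL : Lng G P) (hC : Cmp G {x | x ∈ P} C) :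
    ∃ f, Suc G C f := by
  classical
  have : ∀ h, ∃ b, h ∈ Nb G C → Nx P h b := by
    intro h
    by_cases hh : h ∈ Nb G C
    · obtain ⟨b, hb⟩ := exists_succ hL hC hh
      exact ⟨b, fun _ => hb⟩
    · exact ⟨h, fun h' => absurd h' hh⟩
  choose f hf using this
  exact ⟨f, fun h hh => (hf h hh).adj hL.1, fun h hh => succ_out hL hC hh (hf h hh),
    fun h hh h' hh' e => (hf h hh).inj hL.1.2 (e ▸ hf h' hh'),
    fun h hh h' hh' => indep hL hC hh hh' (hf h hh) (hf h' hh')⟩

section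

variable {C : Set V} {f : V → V}

theorem twoH (hP : NoP5 G) (hC : Cn G C) {s t u u' : V} (hs : s ∈ Nb G C) (ht : t ∈ Nb G C)
    (hst : ¬ G.Adj s t) (hu : u ∈ No G C s) (hu' : u' ∈ No G C t) (htu : ¬ G.Adj t u)
    (hsu' : ¬ G.Adj s u') : G.Adj u u' :=
  two hP hC hs.2 ht.2 hst hu.2 hu'.2 hsu' htu (fun _ hx => out_anti hu.1 hx)
    (fun _ hx => out_anti hu'.1 hx)

theorem exists_mx [Finite V] {t : V} (ht : t ∈ Nb G C) : ∃ m, Mx G C m ∧ No G C t ⊆ No G C m := by
  obtain ⟨m, ⟨hm, htm⟩, hmax⟩ := exists_max (fun m => m ∈ Nb G C ∧ No G C t ⊆ No G C m)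
    (fun m => (No G C m).ncard) (Nat.card V) (fun a _ => Set.ncard_le_card _)
    ⟨t, ht, subset_rfl⟩
  refine ⟨m, ⟨hm, fun h' hh' hsub => ?_⟩, htm⟩
  have := hmax h' ⟨hh', htm.trans hsub⟩
  exact (Set.eq_of_subset_of_ncard_le hsub this (Set.toFinite _)).symm.subset

theorem five_c (hP : NoP5 G) (hC : Cn G C) {y : V} (hy : y ∈ Nb G C) (hm : ∃ c ∈ C, ¬ G.Adj y c)
    {u u' : V} (hu : u ∈ Out G C) (hu' : u' ∈ Out G C) (huu : G.Adj u u') (hyu : G.Adj y u) :
    G.Adj y u' := by
  by_contra hcon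
  obtain ⟨c, hc, a, ha, hca, hyc, hya⟩ := mixed hC hy.2 hm
  exact hP a c y u u' hca.symm hyc.symm hyu huu (fun h => hya h.symm)
    (fun h => out_anti hu ha h.symm) (fun h => out_anti hu' ha h.symm)
    (fun h => out_anti hu hc h.symm) (fun h => out_anti hu' hc h.symm) hcon

theorem five_a (hP : NoP5 G) (hC : Cn G C) {y t : V} (hy : Mx G C y) (hm : ∃ c ∈ C, ¬ G.Adj y c)
    (ht : t ∈ Nb G C) (hyt : ¬ G.Adj y t) : No G C t ⊆ No G C y := by
  intro u hu
  by_contra hcon
  have hyu : ¬ G.Adj y u := fun h => hcon ⟨hu.1, h⟩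
  have hsub : No G C y ⊆ No G C t := by
    intro u' hu'
    by_contra hcon'
    have htu' : ¬ G.Adj t u' := fun h => hcon' ⟨hu'.1, h⟩
    have := twoH hP hC hy.1 ht hyt hu' hu htu' hyu
    exact hyu (five_c hP hC hy.1 hm hu'.1 hu.1 this hu'.2)
  exact hcon (hy.2 t ht hsub hu)

/-- neighbours of `h` among the successors. -/
def Np (G : SimpleGraph V) (C : Set V) (f : V → V) (h : V) : Set V :=
  {w | (∃ s ∈ Nb G C, w = f s) ∧ G.Adj h w}

theorem six_a [Finite V] (hP : NoP5 G) (hC : Cn G C) (hf : Suc G C f) {h t : V}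
    (hh : h ∈ Nb G C) (ht : t ∈ Nb G C) (hht : ¬ G.Adj h t) (hft : ¬ G.Adj h (f t)) :
    (Np G C f h).ncard < (Np G C f t).ncard := by
  apply Set.ncard_lt_ncard _ (Set.toFinite _)
  rw [Set.ssubset_iff_of_subset]
  · exact ⟨f t, ⟨⟨t, ht, rfl⟩, hf.adj t ht⟩, fun h' => hft h'.2⟩
  · rintro w ⟨⟨s, hs, rfl⟩, hhw⟩
    refine ⟨⟨s, hs, rfl⟩, ?_⟩
    by_contra htw
    exact hf.ind s hs t ht (twoH hP hC hh ht hht ⟨hf.out s hs, hhw⟩ ⟨hf.out t ht, hf.adj t ht⟩
      htw hft)

theorem np_mono [Finite V] (hf : Suc G C f) {t m : V} (h : No G C t ⊆ No G C m) :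
    (Np G C f t).ncard ≤ (Np G C f m).ncard := by
  apply Set.ncard_le_ncard _ (Set.toFinite _)
  rintro w ⟨⟨s, hs, rfl⟩, htw⟩
  exact ⟨⟨s, hs, rfl⟩, (h ⟨hf.out s hs, htw⟩).2⟩

/-- counting along a list. -/
theorem cnt (q r : V → Bool) : ∀ n : ℕ, ∀ l : List V, l.length ≤ n →
    (∀ A w B, l = A ++ w :: B → q w = true → ∃ x B', B = x :: B' ∧ r x = true ∧ q x = false) →
    l.countP q ≤ l.countP r := by
  intro n
  induction n with
  | zero =>
    intro l hl _
    have : l = [] := by simpa using hl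
    subst this; simp
  | succ n ih =>
    intro l hl hyp
    cases l with
    | nil => simp
    | cons a l =>
      have hyp' : ∀ A w B, l = A ++ w :: B → q w = true →
          ∃ x B', B = x :: B' ∧ r x = true ∧ q x = false := fun A w B e hq =>
        hyp (a :: A) w B (by simp [e]) hq
      by_cases hq : q a = true
      · obtain ⟨x, B', rfl, hr, hqx⟩ := hyp [] a l (by simp) hq
        have hyp'' : ∀ A w B, B' = A ++ w :: B → q w = true →
            ∃ x B', B = x :: B' ∧ r x = true ∧ q x = false := fun A w B e hq =>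
          hyp' (x :: A) w B (by simp [e]) hq
        have := ih B' (by simp at hl; omega) hyp''
        simp only [List.countP_cons, hq, hr, hqx, if_true]
        simp
        omega
      · have := ih l (by simp at hl; omega) hyp'
        simp only [List.countP_cons, hq]
        simp
        omega

theorem first_split {p : V → Prop} : ∀ {l : List V}, (∃ x ∈ l, p x) →
    ∃ A x B, l = A ++ x :: B ∧ p x ∧ ∀ a ∈ A, ¬ p a := by
  classical
  intro l
  induction l with
  | nil => rintro ⟨x, hx, _⟩; simp at hx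
  | cons y l ih =>
    rintro ⟨x, hx, hpx⟩
    by_cases hy : p y
    · exact ⟨[], y, l, rfl, hy, by simp⟩
    · have : ∃ x ∈ l, p x := by
        rcases List.mem_cons.1 hx with rfl | hx
        · exact absurd hpx hy
        · exact ⟨x, hx, hpx⟩
      obtain ⟨A, z, B, rfl, hz, hA⟩ := ih this
      refine ⟨y :: A, z, B, rfl, hz, ?_⟩
      intro a ha
      rcases List.mem_cons.1 ha with rfl | ha
      exacts [hy, hA a ha]

theorem cnt' (q r : V → Bool) (l : List V)
    (h1 : ∀ A w B, l = A ++ w :: B → q w = true → ∃ x B', B = x :: B' ∧ r x = true ∧ q x = false)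
    (h2 : ∀ A w B, l = A ++ w :: B → q w = true → ∃ x A', A = A' ++ [x] ∧ r x = true)
    (hex : ∃ w ∈ l, q w = true) : l.countP q + 1 ≤ l.countP r := by
  obtain ⟨A, w, B, rfl, hw, hA⟩ := first_split (p := fun w => q w = true) hex
  obtain ⟨x, A', rfl, hx⟩ := h2 A w B rfl hw
  have hc := cnt q r _ (w :: B) le_rfl (fun A1 w1 B1 e hq => by
    have := h1 ((A' ++ [x]) ++ A1) w1 B1 (by rw [e]; simp) hq
    exact this)
  have h0 : (A' ++ [x]).countP q = 0 := by
    rw [List.countP_eq_zero]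
    exact hA
  have h3 : 1 ≤ (A' ++ [x]).countP r := by
    rw [List.countP_append]; simp [hx]
  rw [List.countP_append, List.countP_append (l₁ := A' ++ [x])]
  omega

theorem five_b (hP : NoP5 G) (hC : Cn G C) (hf : Suc G C f) {y : V} (hy : Mx G C y)
    (hm : ∃ c ∈ C, ¬ G.Adj y c) {P' : List V} (hL : Lng G P') (hyP : y ∉ P') :
    ∀ x ∈ P', x ∉ No G C y := by
  classical
  intro x0 hx0 hx0N
  let q : V → Bool := fun w => decide (w ∈ No G C y)
  let r : V → Bool := fun t => decide (t ∈ Nb G C ∧ t ≠ y ∧ ¬ G.Adj y t ∧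
    ∃ u, (Nx P' u t ∨ Nx P' t u) ∧ G.Adj y u)
  have hq : ∀ w, q w = true ↔ w ∈ No G C y := fun w => by simp [q]
  have hr : ∀ t, r t = true ↔ (t ∈ Nb G C ∧ t ≠ y ∧ ¬ G.Adj y t ∧
    ∃ u, (Nx P' u t ∨ Nx P' t u) ∧ G.Adj y u) := fun w => by simp [r]
  -- neighbours along the path
  have hnb : ∀ w x, w ∈ No G C y → G.Adj w x → x ∈ P' → ¬ G.Adj y x → x ∈ Nb G C ∧ x ≠ y := by
    intro w x hw hwx hxP hyx
    refine ⟨?_, fun e => hyP (e ▸ hxP)⟩
    by_contra hxN
    have hxC : x ∉ C := fun h => out_anti hw.1 h hwx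
    exact hyx (five_c hP hC hy.1 hm hw.1 ⟨hxC, hxN⟩ hwx hw.2)
  have h1 : ∀ A w B, P' = A ++ w :: B → q w = true →
      ∃ x B', B = x :: B' ∧ r x = true ∧ q x = false := by
    intro A w B e hqw
    rw [hq] at hqw
    cases B with
    | nil =>
      exfalso
      have e' : P' = P' ++ [] := by simp
      rw [e'] at hL
      refine gen_ins hL (Q := [y]) ⟨by simp, by simp⟩ (by simp) (by simpa using hyP) ?_ (by simp)
      intro a ha b hb
      rw [e] at ha
      simp at ha hb; subst ha; subst hb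
      exact hqw.2.symm
    | cons x B =>
      have hnx : Nx P' w x := ⟨A, B, e⟩
      have hyx : ¬ G.Adj y x := by
        intro hyx
        have e' : P' = (A ++ [w]) ++ x :: B := by simp [e]
        rw [e'] at hL hyP
        refine gen_ins hL (Q := [y]) ⟨by simp, by simp⟩ (by simp) ?_ ?_ ?_
        · intro z hz
          simp only [List.mem_singleton] at hz
          subst hz
          rwa [List.mem_append, not_or] at hyP
        · intro a ha b hb
          simp at ha hb; subst ha; subst hb; exact hqw.2.symm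
        · intro a ha b hb
          simp at ha hb; subst ha; subst hb; exact hyx
      obtain ⟨hx1, hx2⟩ := hnb w x hqw (hnx.adj hL.1) hnx.right_mem hyx
      refine ⟨x, B, rfl, (hr x).2 ⟨hx1, hx2, hyx, w, Or.inl hnx, hqw.2⟩, ?_⟩
      rw [← Bool.not_eq_true, hq]
      exact fun h => hyx h.2
  have h2 : ∀ A w B, P' = A ++ w :: B → q w = true → ∃ x A', A = A' ++ [x] ∧ r x = true := by
    intro A w B e hqw
    rw [hq] at hqw
    rcases List.eq_nil_or_concat A with rfl | ⟨A', x, rfl⟩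
    · exfalso
      have e' : P' = [] ++ P' := by simp
      rw [e'] at hL
      refine gen_ins hL (Q := [y]) ⟨by simp, by simp⟩ (by simp) (by simpa using hyP) (by simp) ?_
      intro a ha b hb
      rw [e] at hb
      simp at ha hb; subst ha; subst hb
      exact hqw.2
    · have hnx : Nx P' x w := ⟨A', B, by simp [e]⟩
      have hyx : ¬ G.Adj y x := by
        intro hyx
        rw [e] at hL hyP
        refine gen_ins hL (Q := [y]) ⟨by simp, by simp⟩ (by simp) ?_ ?_ ?_
        · intro z hz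
          simp only [List.mem_singleton] at hz
          subst hz
          rwa [List.mem_append, not_or] at hyP
        · intro a ha b hb
          simp at ha hb; subst ha; subst hb; exact hyx.symm
        · intro a ha b hb
          simp at ha hb; subst ha; subst hb; exact hqw.2
      obtain ⟨hx1, hx2⟩ := hnb w x hqw (hnx.adj hL.1).symm hnx.left_mem hyx
      exact ⟨x, A', by simp, (hr x).2 ⟨hx1, hx2, hyx, w, Or.inr hnx, hqw.2⟩⟩
  have hcnt := cnt' q r P' h1 h2 ⟨x0, hx0, (hq x0).2 hx0N⟩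
  -- the injection
  have hle : P'.countP r ≤ P'.countP q := by
    rw [List.countP_eq_length_filter, List.countP_eq_length_filter]
    have hsub : ((P'.filter r).map f) ⊆ P'.filter q := by
      intro z hz
      rw [List.mem_map] at hz
      obtain ⟨t, ht, rfl⟩ := hz
      rw [List.mem_filter, hr] at ht
      obtain ⟨htP, htN, hty, hyt, u, hu, hyu⟩ := ht
      have hft : f t ∈ No G C y := five_a hP hC hy hm htN hyt ⟨hf.out t htN, hf.adj t htN⟩
      rw [List.mem_filter, hq]
      refine ⟨?_, hft⟩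
      by_contra hzP
      have hyz : y ≠ f t := hft.2.ne
      rcases hu with ⟨A, B, e⟩ | ⟨A, B, e⟩
      · have e' : P' = (A ++ [u]) ++ t :: B := by simp [e]
        rw [e'] at hL hyP hzP
        refine gen_ins hL (Q := [y, f t]) ⟨by simp [hft.2], by simp [hyz]⟩ (by simp) ?_ ?_ ?_
        · intro z hz
          simp only [List.mem_cons, List.not_mem_nil, or_false] at hz
          rw [List.mem_append, not_or] at hyP hzP
          rcases hz with rfl | rfl
          exacts [hyP, hzP]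
        · intro a ha b hb
          simp at ha hb; subst ha; subst hb; exact hyu.symm
        · intro a ha b hb
          simp at ha hb; subst ha; subst hb; exact (hf.adj _ htN).symm
      · have e' : P' = (A ++ [t]) ++ u :: B := by simp [e]
        rw [e'] at hL hyP hzP
        refine gen_ins hL (Q := [f t, y]) ⟨by simp [hft.2.symm], by simp [hyz.symm]⟩ (by simp)
          ?_ ?_ ?_
        · intro z hz
          simp only [List.mem_cons, List.not_mem_nil, or_false] at hz
          rw [List.mem_append, not_or] at hyP hzP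
          rcases hz with rfl | rfl
          exacts [hzP, hyP]
        · intro a ha b hb
          simp at ha hb; subst ha; subst hb; exact hf.adj _ htN
        · intro a ha b hb
          simp at ha hb; subst ha; subst hb; exact hyu
    have hnd : ((P'.filter r).map f).Nodup := by
      rw [List.nodup_map_iff_inj_on (hL.1.2.filter _)]
      intro t ht t' ht' e
      rw [List.mem_filter, hr] at ht ht'
      exact hf.inj t ht.2.1 t' ht'.2.1 e
    have := (List.subperm_of_subset hnd hsub).length_le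
    simpa using this
  omega

/-- If `h` sees all of `C` and the successors of its non-neighbours, it is on all longest paths. -/
theorem six [Finite V] (hf : Suc G C f)
    (hmax : ∀ P' : List V, ∀ C' : Set V, Lng G P' → Cmp G {x | x ∈ P'} C' →
      (C' ∪ Nb G C').ncard ≤ (C ∪ Nb G C).ncard) {h : V}
    (hc : ∀ c ∈ C, G.Adj h c) (hn : ∀ t ∈ Nb G C, ¬ G.Adj h t → G.Adj h (f t))
    {P' : List V} (hL : Lng G P') (hP' : h ∉ P') : False := by
  classical
  obtain ⟨C', hC', hhC'⟩ := exists_cmp (G := G) {x | x ∈ P'} h hP'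
  have hsub : ∀ x, G.Adj h x → x ∈ C' ∪ Nb G C' := by
    intro x hx
    by_cases hxC : x ∈ C'
    · exact Or.inl hxC
    · exact Or.inr ⟨hxC, h, hhC', hx.symm⟩
  let φ : V → V := fun x => if G.Adj h x then x else f x
  have hφ : ∀ x ∈ C ∪ Nb G C, G.Adj h (φ x) := by
    intro x hx
    by_cases hx' : G.Adj h x
    · simp only [φ, hx', if_true]
    · simp only [φ, hx', if_false]
      rcases hx with hx | hx
      · exact absurd (hc x hx) hx'
      · exact hn x hx hx'
  have hle : (C ∪ Nb G C).ncard ≤ ((C' ∪ Nb G C') \ {h}).ncard := by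
    apply Set.ncard_le_ncard_of_injOn φ
    · intro x hx
      refine ⟨hsub _ (hφ x hx), fun e => ?_⟩
      have h1 := hφ x hx
      rw [Set.mem_singleton_iff.1 e] at h1
      exact G.irrefl h1
    · intro x hx x' hx' e
      have key : ∀ z ∈ C ∪ Nb G C, ¬ G.Adj h z → z ∈ Nb G C := by
        intro z hz hnz
        rcases hz with hz | hz
        · exact absurd (hc z hz) hnz
        · exact hz
      have key2 : ∀ z ∈ Nb G C, f z ∉ C ∪ Nb G C := by
        intro z hz hfz
        rcases hfz with hfz | hfz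
        · exact (hf.out z hz).1 hfz
        · exact (hf.out z hz).2 hfz
      by_cases h1 : G.Adj h x <;> by_cases h2 : G.Adj h x'
      · simpa [φ, h1, h2] using e
      · simp only [φ, h1, h2, if_true, if_false] at e
        exact (key2 x' (key x' hx' h2) (e ▸ hx)).elim
      · simp only [φ, h1, h2, if_true, if_false] at e
        exact (key2 x (key x hx h1) (e ▸ hx')).elim
      · simp only [φ, h1, h2, if_false] at e
        exact hf.inj x (key x hx h1) x' (key x' hx' h2) e
  have hlt : ((C' ∪ Nb G C') \ {h}).ncard < (C' ∪ Nb G C').ncard := by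
    apply Set.ncard_lt_ncard _ (Set.toFinite _)
    rw [Set.ssubset_iff_of_subset Set.sdiff_subset]
    exact ⟨h, Or.inl hhC', fun h' => h'.2 rfl⟩
  have := hmax P' C' hL hC'
  omega

end

end MainPart

section FinalPart
/-! ### Every connected graph without induced five-vertex path has a vertex on all longest paths. -/


variable {V : Type*} {G : SimpleGraph V}

theorem exists_lng [Finite V] : ∃ P, Lng G P := by
  cases nonempty_fintype V
  obtain ⟨P, hP, hmax⟩ := exists_max (fun l : List V => Pth G l) List.length (Fintype.card V)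
    (fun l hl => hl.2.length_le_card) ⟨[], by simp, by simp⟩
  exact ⟨P, hP, hmax⟩

/-- In a connected graph an edge leaves every proper nonempty set. -/
theorem exists_edge (hG : Cn G Set.univ) {U : Set V} (hU : U.Nonempty) (hU' : ∃ x, x ∉ U) :
    ∃ u ∈ U, ∃ v, v ∉ U ∧ G.Adj u v := by
  by_contra hcon
  push Not at hcon
  obtain ⟨x, hx⟩ := hU'
  obtain ⟨u, hu⟩ := hU
  exact hx (hG (fun x => x ∈ U) ⟨u, trivial, hu⟩ (fun u _ v _ huv h => by
    by_contra hv
    exact hcon u h v hv huv) x trivial)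

theorem main [Finite V] [Nonempty V] (hG : Cn G Set.univ) (hP : NoP5 G) :
    ∃ v : V, ∀ P, Lng G P → v ∈ P := by
  classical
  by_contra hno
  push Not at hno
  -- the extremal pair
  have hex : ∃ pc : List V × Set V, Lng G pc.1 ∧ Cmp G {x | x ∈ pc.1} pc.2 := by
    obtain ⟨v⟩ := ‹Nonempty V›
    obtain ⟨P, hL, hv⟩ := hno v
    obtain ⟨C, hC, _⟩ := exists_cmp (G := G) {x | x ∈ P} v hv
    exact ⟨(P, C), hL, hC⟩
  obtain ⟨⟨P, C⟩, ⟨hL, hC⟩, hmax'⟩ := exists_max _
    (fun pc : List V × Set V => (pc.2 ∪ Nb G pc.2).ncard) (Nat.card V)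
    (fun _ _ => Set.ncard_le_card _) hex
  have hmax : ∀ P' : List V, ∀ C' : Set V, Lng G P' → Cmp G {x | x ∈ P'} C' →
      (C' ∪ Nb G C').ncard ≤ (C ∪ Nb G C).ncard := fun P' C' h1 h2 => hmax' (P', C') ⟨h1, h2⟩
  clear hmax' hex
  simp only at hL hC
  obtain ⟨f, hf⟩ := exists_suc hL hC
  have hCn := hC.cn
  -- attachments exist
  have hHne : ∃ h, h ∈ Nb G C := by
    have hPne : P ≠ [] := by
      rintro rfl
      obtain ⟨v⟩ := ‹Nonempty V›
      have := hL.2 [v] ⟨by simp, by simp⟩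
      simp at this
    obtain ⟨x, hx⟩ := List.exists_mem_of_ne_nil P hPne
    obtain ⟨c, hc, v, hv, hcv⟩ := exists_edge hG hC.ne ⟨x, fun h => not_mem_P hC h hx⟩
    exact ⟨v, hv, c, hc, hcv.symm⟩
  -- every maximal attachment complete to C has a bad partner
  have hbad : ∀ h ∈ Nb G C, (∀ c ∈ C, G.Adj h c) →
      ∃ t ∈ Nb G C, ¬ G.Adj h t ∧ ¬ G.Adj h (f t) := by
    intro h _ hc
    by_contra hcon
    push Not at hcon
    obtain ⟨P', hL', hP'⟩ := hno h
    exact six hf hmax hc hcon hL' hP'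
  -- step A: a maximal attachment mixed on C
  have hA : ∃ y, Mx G C y ∧ ∃ c ∈ C, ¬ G.Adj y c := by
    obtain ⟨h0, hh0⟩ := hHne
    obtain ⟨m0, hm0, _⟩ := exists_mx hh0
    obtain ⟨h, hh, hhmax⟩ := exists_max (fun h => Mx G C h) (fun h => (Np G C f h).ncard)
      (Nat.card V) (fun _ _ => Set.ncard_le_card _) ⟨m0, hm0⟩
    refine ⟨h, hh, ?_⟩
    by_contra hcon
    push Not at hcon
    obtain ⟨t, ht, hht, hft⟩ := hbad h hh.1 hcon
    obtain ⟨m, hm, htm⟩ := exists_mx ht
    have h1 := six_a hP hCn hf hh.1 ht hht hft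
    have h2 := np_mono (G := G) hf htm
    have h3 := hhmax m hm
    omega
  -- step B: the pair (y, π)
  obtain ⟨⟨y, π⟩, ⟨hy, hym, hπ, hπy⟩, hymax'⟩ := exists_max
    (fun yp : V × List V => Mx G C yp.1 ∧ (∃ c ∈ C, ¬ G.Adj yp.1 c) ∧ Pth G yp.2 ∧
      ∀ x ∈ yp.2, x ∈ No G C yp.1) (fun yp => yp.2.length) (Nat.card V)
    (fun yp h => by
      cases nonempty_fintype V
      rw [Nat.card_eq_fintype_card]
      exact h.2.2.1.2.length_le_card)
    (by
      obtain ⟨y, hy, hym⟩ := hA
      exact ⟨(y, []), hy, hym, ⟨by simp, by simp⟩, by simp⟩)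
  simp only at hy hym hπ hπy
  have hymax : ∀ h, Mx G C h → (∃ c ∈ C, ¬ G.Adj h c) → ∀ ρ : List V, Pth G ρ →
      (∀ x ∈ ρ, x ∈ No G C h) → ρ.length ≤ π.length := fun h h1 h2 ρ h3 h4 =>
    hymax' (h, ρ) ⟨h1, h2, h3, h4⟩
  clear hymax'
  -- step C
  obtain ⟨P', hL', hyP'⟩ := hno y
  obtain ⟨C', hC', hyC'⟩ := exists_cmp (G := G) {x | x ∈ P'} y hyP'
  have h5b := five_b hP hCn hf hy hym hL' hyP'
  have hNoC' : ∀ x ∈ No G C y, x ∈ C' := fun x hx =>
    hC'.cl y hyC' x (fun hx' => h5b x hx' hx) hx.2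
  have hnb' : ∃ x ∈ P', x ∈ Nb G C' := by
    have hPne : P' ≠ [] := by
      rintro rfl
      obtain ⟨v⟩ := ‹Nonempty V›
      have := hL'.2 [v] ⟨by simp, by simp⟩
      simp at this
    obtain ⟨x, hx⟩ := List.exists_mem_of_ne_nil P' hPne
    obtain ⟨c, hc, v, hv, hcv⟩ := exists_edge hG hC'.ne ⟨x, fun h => not_mem_P hC' h hx⟩
    have hvN : v ∈ Nb G C' := ⟨hv, c, hc, hcv.symm⟩
    exact ⟨v, nb_mem hC' hvN, hvN⟩
  obtain ⟨σ, g, e, hPe, hg, hσ⟩ := first_split hnb'
  have hσlen : π.length + 1 ≤ σ.length :=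
    initseg hP hL' hC' hPe hg hσ hyC' hπ (fun x hx => hNoC' x (hπy x hx))
      (fun x hx => (hπy x hx).2.symm)
  have hσP' : ∀ x ∈ σ, x ∈ P' := fun x hx => by rw [hPe]; simp [hx]
  have hσC' : ∀ x ∈ σ, x ∉ C' := fun x hx h => not_mem_P hC' h (hσP' x hx)
  have hσpth : Pth G σ := by
    have h1 := hL'.1
    rw [hPe] at h1
    exact ⟨h1.1.left_of_append, (List.nodup_append.1 h1.2).1⟩
  -- vertices seen from C'
  have hσanti : ∀ x ∈ σ, ∀ c ∈ C', ¬ G.Adj x c := fun x hx c hc h =>
    hσ x hx ⟨hσC' x hx, c, hc, h⟩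
  -- step D
  have hσH : ∀ x ∈ σ, x ∉ Nb G C := by
    intro t ht htH
    by_cases hyt : G.Adj y t
    · exact hσanti t ht y hyC' hyt.symm
    · have : f t ∈ No G C y := five_a hP hCn hy hym htH hyt ⟨hf.out t htH, hf.adj t htH⟩
      exact hσanti t ht (f t) (hNoC' _ this) (hf.adj t htH)
  have hσne : σ ≠ [] := by
    rintro rfl
    simp at hσlen
  obtain ⟨x0, hx0⟩ := List.exists_mem_of_ne_nil σ hσne
  have hyx : ∀ x ∈ σ, ¬ G.Adj y x := fun x hx h => hσanti x hx y hyC' h.symm
  -- a component of G - H contained in Out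
  have hUout : ∀ U, Cmp G (Nb G C) U → (∃ x ∈ U, x ∉ C) → ∀ x ∈ U, x ∈ Out G C := by
    intro U hU hx x hxU
    refine ⟨fun hxC => ?_, hU.dis x hxU⟩
    obtain ⟨z, hz, hzC⟩ := hx
    exact hzC (hU.cn (fun x => x ∈ C) ⟨x, hxU, hxC⟩ (fun u hu v hv huv huC => by
      by_contra hvC
      exact hU.dis v hv ⟨hvC, u, huC, huv.symm⟩) z hz)
  have hall : ∀ h, h ∈ Nb G C → (∃ c ∈ C, ¬ G.Adj h c) → ∀ U, Cmp G (Nb G C) U →
      (∀ x ∈ U, x ∈ Out G C) → (∃ u ∈ U, G.Adj h u) → ∀ u ∈ U, G.Adj h u := by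
    intro h hh hm U hU hUo hex
    exact hU.cn (fun x => G.Adj h x) hex (fun u hu v hv huv hhu =>
      five_c hP hCn hh hm (hUo u hu) (hUo v hv) huv hhu)
  -- step E
  have hE : ∃ U, Cmp G (Nb G C) U ∧ (∀ x ∈ U, x ∈ Out G C) ∧ (∀ u ∈ U, ¬ G.Adj y u) ∧
      ∃ ρ : List V, Pth G ρ ∧ (∀ x ∈ ρ, x ∈ U) ∧ π.length + 1 ≤ ρ.length := by
    by_cases hxC : ∃ x ∈ σ, x ∈ C
    · -- σ inside C
      have hσC : ∀ x ∈ σ, x ∈ C := by
        obtain ⟨x, hx, hxC⟩ := hxC
        exact chain_cn hσpth.1 (fun x => x ∈ C) ⟨x, hx, hxC⟩ (fun u _ v hv huv huC => by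
          by_contra hvC
          exact hσH v hv ⟨hvC, u, huC, huv.symm⟩)
      have hfy := hf.out y hy.1
      have hyfy := hf.adj y hy.1
      obtain ⟨a, ha, hya, hax⟩ := (dom hP hCn hy.1.2 hyfy (fun x hx => out_anti hfy hx) x0
        (hσC x0 hx0)).resolve_left (hyx x0 hx0)
      have haσ : ∀ x ∈ σ, G.Adj a x := by
        refine chain_cn hσpth.1 (fun x => G.Adj a x) ⟨x0, hx0, hax⟩ (fun u hu v hv huv hau => ?_)
        by_contra hav
        exact hP (f y) y a u v hyfy.symm hya hau huv (out_anti hfy ha) (out_anti hfy (hσC u hu))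
          (out_anti hfy (hσC v hv)) (hyx u hu) (hyx v hv) hav
      have hnb : ∃ x ∈ P, x ∈ Nb G C := ⟨y, nb_mem hC hy.1, hy.1⟩
      obtain ⟨d, g1, e1, hPe1, hg1, hd⟩ := first_split hnb
      have hdlen : σ.length + 1 ≤ d.length :=
        initseg hP hL hC hPe1 hg1 hd ha hσpth hσC (fun x hx => (haσ x hx).symm)
      have hdne : d ≠ [] := by
        rintro rfl
        simp at hdlen
      obtain ⟨x1, hx1⟩ := List.exists_mem_of_ne_nil d hdne
      have hdP : ∀ x ∈ d, x ∈ P := fun x hx => by rw [hPe1]; simp [hx]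
      have hdpth : Pth G d := by
        have h1 := hL.1
        rw [hPe1] at h1
        exact ⟨h1.1.left_of_append, (List.nodup_append.1 h1.2).1⟩
      obtain ⟨U, hU, hxU⟩ := exists_cmp (G := G) (Nb G C) x1 (hd x1 hx1)
      have hdU : ∀ x ∈ d, x ∈ U := hU.sub (chain_cn hdpth.1) hd ⟨x1, hx1, hxU⟩
      have hUo := hUout U hU ⟨x1, hxU, fun h => not_mem_P hC h (hdP x1 hx1)⟩
      refine ⟨U, hU, hUo, ?_, d, hdpth, hdU, by omega⟩
      intro u hu hyu
      have hyU := hall y hy.1 hym U hU hUo ⟨u, hu, hyu⟩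
      have := hymax y hy hym d hdpth (fun x hx => ⟨hUo x (hdU x hx), hyU x (hdU x hx)⟩)
      omega
    · -- σ outside
      obtain ⟨U, hU, hxU⟩ := exists_cmp (G := G) (Nb G C) x0 (hσH x0 hx0)
      have hσU : ∀ x ∈ σ, x ∈ U := hU.sub (chain_cn hσpth.1) hσH ⟨x0, hx0, hxU⟩
      have hUo := hUout U hU ⟨x0, hxU, fun h => hxC ⟨x0, hx0, h⟩⟩
      refine ⟨U, hU, hUo, ?_, σ, hσpth, hσU, hσlen⟩
      intro u hu hyu
      exact hyx x0 hx0 (hall y hy.1 hym U hU hUo ⟨u, hu, hyu⟩ x0 hxU)
  obtain ⟨U, hU, hUo, hyU, ρ, hρ, hρU, hρlen⟩ := hE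
  -- (8a)
  have h8a : ∀ h, Mx G C h → (∃ u ∈ U, G.Adj h u) → ∀ c ∈ C, G.Adj h c := by
    intro h hh hex
    by_contra hcon
    push Not at hcon
    have h1 := hall h hh.1 hcon U hU hUo hex
    have := hymax h hh hcon ρ hρ (fun x hx => ⟨hUo x (hρU x hx), h1 x (hρU x hx)⟩)
    omega
  -- (8b)
  have h8b : ∀ h, Mx G C h → (∃ u ∈ U, G.Adj h u) → ∀ z ∈ U, G.Adj h z := by
    intro h hh hex
    obtain ⟨u0, hu0, hhu0⟩ := hex
    have hhy : G.Adj y h := by
      by_contra hyh
      exact hyU u0 hu0 (five_a hP hCn hy hym hh.1 hyh ⟨hUo u0 hu0, hhu0⟩).2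
    have hw : ∃ w0 ∈ No G C y, ¬ G.Adj h w0 := by
      by_contra hcon
      push Not at hcon
      have hsub : No G C y ⊆ No G C h := fun w hw => ⟨hw.1, hcon w hw⟩
      exact hyU u0 hu0 (hy.2 h hh.1 hsub ⟨hUo u0 hu0, hhu0⟩).2
    obtain ⟨w0, hw0, hhw0⟩ := hw
    have hw0U : ∀ u ∈ U, ¬ G.Adj w0 u := fun u hu h =>
      hyU u hu (five_c hP hCn hy.1 hym hw0.1 (hUo u hu) h hw0.2)
    refine hU.cn (fun x => G.Adj h x) ⟨u0, hu0, hhu0⟩ (fun u hu v hv huv hhu => ?_)
    by_contra hhv
    exact hP w0 y h u v hw0.2.symm hhy hhu huv (fun h' => hhw0 h'.symm) (hw0U u hu) (hw0U v hv)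
      (hyU u hu) (hyU v hv) hhv
  -- final choice
  have hexH : ∃ h, Mx G C h ∧ ∃ u ∈ U, G.Adj h u := by
    obtain ⟨u, hu, v, hv, huv⟩ := exists_edge hG hU.ne ⟨y, fun h => hU.dis y h hy.1⟩
    have hvH : v ∈ Nb G C := by
      by_contra hvH
      exact hv (hU.cl u hu v hvH huv)
    obtain ⟨m, hm, hvm⟩ := exists_mx hvH
    exact ⟨m, hm, u, hu, (hvm ⟨hUo u hu, huv.symm⟩).2⟩
  obtain ⟨h, ⟨hh, hhU⟩, hhmax⟩ := exists_max (fun h => Mx G C h ∧ ∃ u ∈ U, G.Adj h u)
    (fun h => (Np G C f h).ncard) (Nat.card V) (fun _ _ => Set.ncard_le_card _) hexH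
  obtain ⟨t, ht, hht, hhft⟩ := hbad h hh.1 (h8a h hh hhU)
  have hftU : f t ∉ U := fun h' => hhft (h8b h hh hhU (f t) h')
  -- u' outer neighbour of h not adjacent to t
  have hu' : ∃ u' ∈ No G C h, ¬ G.Adj t u' := by
    by_contra hcon
    push Not at hcon
    have hsub : No G C h ⊆ No G C t := fun w hw => ⟨hw.1, hcon w hw⟩
    exact hhft (hh.2 t ht hsub ⟨hf.out t ht, hf.adj t ht⟩).2
  obtain ⟨u', hu', htu'⟩ := hu'
  have hu'ft : G.Adj u' (f t) := twoH hP hCn hh.1 ht hht hu' ⟨hf.out t ht, hf.adj t ht⟩ htu' hhft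
  have hu'U : u' ∉ U := fun h' => hftU (hU.cl u' h' (f t) (hf.out t ht).2 hu'ft)
  obtain ⟨u, hu, hhu⟩ := hhU
  have htu : G.Adj t u := by
    by_contra htu
    have : G.Adj u (f t) := twoH hP hCn hh.1 ht hht ⟨hUo u hu, hhu⟩
      ⟨hf.out t ht, hf.adj t ht⟩ htu hhft
    exact hftU (hU.cl u hu (f t) (hf.out t ht).2 this)
  obtain ⟨m, hm, htm⟩ := exists_mx ht
  have h1 := six_a hP hCn hf hh.1 ht hht hhft
  have h2 := np_mono (G := G) hf htm
  have h3 := hhmax m ⟨hm, u, hu, (htm ⟨hUo u hu, htu⟩).2⟩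
  omega

end FinalPart

end MPfeab4e
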